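import Mathlib

set_option autoImplicit false

namespace Pool.Agent.Results.MP_ea093d_al.LeastSemilattice

/-- An identical inclusion `u ∈ V` over the countably infinite alphabet `ℕ`: a nonempty word `u`
and a set `V` of nonempty words (automatically finite or countably infinite). -/
structure Inclusion where
  lhs : FreeSemigroup ℕ
  rhs : Set (FreeSemigroup ℕ)

/-- `S` satisfies the inclusion: under every assignment of the letters to elements of `S`, the
value of the left side equals the value of at least one word of the right side. -/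
def Satisfies (S : Semigrp.{0}) (ι : Inclusion) : Prop :=
  ∀ φ : ℕ → S, ∃ v ∈ ι.rhs, FreeSemigroup.lift φ ι.lhs = FreeSemigroup.lift φ v

/-- A class of semigroups is an inclusive variety if it consists of all semigroups satisfying
some set of identical inclusions. -/
def IsInclusiveVariety (W : Set Semigrp.{0}) : Prop :=
  ∃ A : Set Inclusion, W = {T | ∀ ι ∈ A, Satisfies T ι}

/-- The inclusive variety generated by `S`: all semigroups satisfying every identical inclusion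
that `S` satisfies. -/
def generated (S : Semigrp.{0}) : Set Semigrp.{0} :=
  {T | ∀ ι : Inclusion, Satisfies S ι → Satisfies T ι}

/-! Semilattices of sets under intersection -/

/-- A family of sets closed under binary intersection. -/
structure Fam (α : Type) where
  carrier : Set (Set α)
  inter : ∀ A ∈ carrier, ∀ B ∈ carrier, A ∩ B ∈ carrier

/-- The members of the family. -/
def Fam.El {α : Type} (P : Fam α) : Type := {A : Set α // A ∈ P.carrier}

instance {α : Type} (P : Fam α) : Semigroup P.El where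
  mul A B := ⟨A.1 ∩ B.1, P.inter _ A.2 _ B.2⟩
  mul_assoc A B C := Subtype.ext (Set.inter_assoc A.1 B.1 C.1)

theorem mul_val {α : Type} {P : Fam α} (A B : P.El) : (A * B).1 = A.1 ∩ B.1 := rfl

/-- The letters of a word. -/
def lets (v : FreeSemigroup ℕ) : List ℕ := v.head :: v.tail

theorem lets_mul (v w : FreeSemigroup ℕ) : lets (v * w) = lets v ++ lets w := rfl

theorem lets_of (x : ℕ) : lets (FreeSemigroup.of x) = [x] := rfl

theorem mem_lift {α : Type} {P : Fam α} (φ : ℕ → P.El) (v : FreeSemigroup ℕ) (y : α) :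
    y ∈ (FreeSemigroup.lift φ v).1 ↔ ∀ j ∈ lets v, y ∈ (φ j).1 := by
  induction v using FreeSemigroup.recOnMul with
  | ih1 x => simp [lets_of]
  | ih2 x v h1 h2 =>
    rw [map_mul, mul_val, Set.mem_inter_iff, h1, h2, lets_mul]
    simp only [List.mem_append, or_imp, forall_and]

theorem sat_iff {α : Type} (P : Fam α) (u : FreeSemigroup ℕ) (V : Set (FreeSemigroup ℕ)) :
    Satisfies (Semigrp.of P.El) ⟨u, V⟩ ↔ ∀ φ : ℕ → P.El, ∃ v ∈ V,
      ∀ y, (∀ j ∈ lets u, y ∈ (φ j).1) ↔ (∀ j ∈ lets v, y ∈ (φ j).1) := by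
  refine forall_congr' fun φ => exists_congr fun v => and_congr_right fun _ => ?_
  constructor
  · intro h y
    have h' : FreeSemigroup.lift φ u = FreeSemigroup.lift φ v := h
    rw [← mem_lift φ u, ← mem_lift φ v, h']
  · intro h
    have h' : FreeSemigroup.lift φ u = FreeSemigroup.lift φ v := by
      apply Subtype.ext
      ext y
      rw [mem_lift φ u, mem_lift φ v, h y]
    exact h'

/-- All subsets of a three-element set. -/
def full : Fam (Fin 3) := ⟨Set.univ, fun _ _ _ _ => Set.mem_univ _⟩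

/-- The witness: the eight subsets of a three-element set under intersection. -/
def SS : Semigrp.{0} := Semigrp.of full.El

theorem card_SS : Nat.card SS = 8 := by
  have e : SS ≃ Set (Fin 3) := Equiv.Set.univ _
  rw [Nat.card_congr e, Nat.card_eq_fintype_card, Fintype.card_set, Fintype.card_fin]
  rfl

/-- A semilattice of sets in which every intersection is attained by two members, or is empty and
attained by three members, lies in the inclusive variety generated by the witness. -/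
theorem mem_generated {α : Type} (P : Fam α)
    (h3 : ∀ (φ : ℕ → P.El) (J : Set ℕ), J.Nonempty →
      (∃ a ∈ J, ∃ b ∈ J, ∀ y, y ∈ (φ a).1 → y ∈ (φ b).1 → ∀ t ∈ J, y ∈ (φ t).1) ∨
        ∃ a ∈ J, ∃ b ∈ J, ∃ c ∈ J, ∀ y, y ∈ (φ a).1 → y ∈ (φ b).1 → y ∉ (φ c).1) :
    Semigrp.of P.El ∈ generated SS := by
  rintro ⟨u, V⟩ hι
  replace hι := (sat_iff full u V).1 hι
  refine (sat_iff P u V).2 fun φ => ?_
  have main : ∀ (a b : ℕ) (Q : ℕ → Prop), a ∈ lets u → b ∈ lets u → ∃ v ∈ V, a ∈ lets v ∧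
      b ∈ lets v ∧ ((∀ j ∈ lets u, Q j) ↔ ∀ j ∈ lets v, Q j) := by
    intro a b Q ha hb
    obtain ⟨v, hv, hh⟩ := hι (fun t => ⟨{i | (i = 0 → t ≠ a) ∧ (i = 1 → t ≠ b) ∧ (i = 2 → Q t)},
      Set.mem_univ _⟩)
    refine ⟨v, hv, ?_, ?_, ?_⟩
    · by_contra hn
      refine ((hh 0).2 (fun t ht => ?_) a ha).1 rfl rfl
      exact ⟨fun _ e => hn (e ▸ ht), fun e => absurd e (by decide), fun e => absurd e (by decide)⟩
    · by_contra hn
      refine ((hh 1).2 (fun t ht => ?_) b hb).2.1 rfl rfl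
      exact ⟨fun e => absurd e (by decide), fun _ e => hn (e ▸ ht), fun e => absurd e (by decide)⟩
    · exact ⟨fun h j hj => ((hh 2).1 (fun t ht => ⟨fun e => absurd e (by decide),
        fun e => absurd e (by decide), fun _ => h t ht⟩) j hj).2.2 rfl,
        fun h j hj => ((hh 2).2 (fun t ht => ⟨fun e => absurd e (by decide),
        fun e => absurd e (by decide), fun _ => h t ht⟩) j hj).2.2 rfl⟩
  rcases h3 φ {j | j ∈ lets u} ⟨u.head, List.mem_cons_self⟩ with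
    ⟨a, ha, b, hb, h⟩ | ⟨a, ha, b, hb, c, hc, h⟩
  · obtain ⟨v, hv, hav, hbv, hh⟩ := main a b (· ∈ lets u) ha hb
    exact ⟨v, hv, fun y => ⟨fun hy j hj => hy j (hh.1 (fun _ g => g) j hj),
      fun hy j hj => h y (hy a hav) (hy b hbv) j hj⟩⟩
  · obtain ⟨v, hv, hav, hbv, hh⟩ := main a b (· ≠ c) ha hb
    have hcv : c ∈ lets v := by
      by_contra hn
      exact hh.2 (fun t ht e => hn (e ▸ ht)) c hc rfl
    exact ⟨v, hv, fun y => ⟨fun hy => absurd (hy c hc) (h y (hy a ha) (hy b hb)),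
      fun hy => absurd (hy c hcv) (h y (hy a hav) (hy b hbv))⟩⟩

/-! Half-circle arcs. Arrange `0, …, 2k` on a circle in the order `0, 2, …, 2k, 1, 3, …, 2k-1`;
`R b y` says that `y` is one of the `k + 1` consecutive points starting at `b`. -/

def R (b y : ℕ) : Prop := (b ≤ y ∧ y % 2 = b % 2) ∨ (y < b ∧ y % 2 ≠ b % 2)

theorem key (F : Set ℕ) (hF : F.Finite) (hne : F.Nonempty) :
    (∃ b ∈ F, ∃ b' ∈ F, ∀ y, R b y → R b' y → ∀ c ∈ F, R c y) ∨
      ∃ a ∈ F, ∃ b ∈ F, ∃ c ∈ F, ∀ y, R a y → R b y → ¬ R c y := by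
  obtain ⟨M, hM, hMmax⟩ := Set.exists_max_image F id hF hne
  obtain ⟨μ, ⟨hμ, hμp⟩, hμmin⟩ := Set.exists_min_image {b ∈ F | b % 2 = M % 2} id
    (hF.subset fun _ h => h.1) ⟨M, hM, rfl⟩
  simp only [id, Set.mem_ofPred_eq, and_imp] at hMmax hμmin
  by_cases hex : {b ∈ F | b % 2 ≠ M % 2}.Nonempty
  · obtain ⟨N, ⟨hN, hNp⟩, hNmax⟩ := Set.exists_max_image {b ∈ F | b % 2 ≠ M % 2} id
      (hF.subset fun _ h => h.1) hex
    simp only [id, Set.mem_ofPred_eq, and_imp] at hNmax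
    by_cases hlt : N < μ
    · refine Or.inl ⟨N, hN, μ, hμ, fun y h1 h2 c hc => ?_⟩
      have e1 := hμmin c hc
      have e2 := hNmax c hc
      unfold R at *
      omega
    · refine Or.inr ⟨μ, hμ, N, hN, M, hM, fun y h1 h2 h3 => ?_⟩
      have e1 := hMmax N hN
      unfold R at *
      omega
  · refine Or.inl ⟨M, hM, μ, hμ, fun y h1 h2 c hc => ?_⟩
    have e0 : c % 2 = M % 2 := by
      by_contra hn
      exact hex ⟨c, hc, hn⟩
    have e1 := hμmin c hc
    have e2 := hMmax c hc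
    unfold R at *
    omega

theorem four {x y z a b c d : ℕ} (a1 : R a x) (a2 : R a y) (a3 : ¬ R a z) (b1 : R b x)
    (b2 : ¬ R b y) (b3 : R b z) (c1 : ¬ R c x) (c2 : R c y) (c3 : R c z) (d1 : R d x)
    (d2 : R d y) (d3 : R d z) : False := by
  unfold R at *
  omega

/-- Intersections of nonempty sets of arcs on the points below `m`. -/
def arcs (m : ℕ) : Fam ℕ where
  carrier := {B | ∃ F : Set ℕ, F.Nonempty ∧ (∀ b ∈ F, b < m) ∧
    ∀ y, y ∈ B ↔ (y < m ∧ ∀ b ∈ F, R b y)}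
  inter := by
    rintro A ⟨F, hF, hFm, hA⟩ B ⟨G, -, hGm, hB⟩
    refine ⟨F ∪ G, hF.mono Set.subset_union_left, fun b hb => hb.elim (hFm b) (hGm b),
      fun y => ?_⟩
    rw [Set.mem_inter_iff, hA, hB]
    exact ⟨fun h => ⟨h.1.1, fun b hb => hb.elim (h.1.2 b) (h.2.2 b)⟩,
      fun h => ⟨⟨h.1, fun b hb => h.2 b (Or.inl hb)⟩, h.1, fun b hb => h.2 b (Or.inr hb)⟩⟩

instance (m : ℕ) : Finite (arcs m).El := by
  refine Set.Finite.to_subtype ((Set.finite_Iio m).finite_subsets.subset ?_)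
  rintro B ⟨F, -, -, hB⟩ y hy
  exact ((hB y).1 hy).1

theorem two_or_three {m : ℕ} (φ : ℕ → (arcs m).El) (J : Set ℕ) (hJ : J.Nonempty) :
    (∃ a ∈ J, ∃ b ∈ J, ∀ y, y ∈ (φ a).1 → y ∈ (φ b).1 → ∀ t ∈ J, y ∈ (φ t).1) ∨
      ∃ a ∈ J, ∃ b ∈ J, ∃ c ∈ J, ∀ y, y ∈ (φ a).1 → y ∈ (φ b).1 → y ∉ (φ c).1 := by
  choose F hne hm hF using fun j => (φ j).2
  have hfin : {b | ∃ j ∈ J, b ∈ F j}.Finite :=
    (Set.finite_Iio m).subset fun b ⟨j, _, hb⟩ => hm j b hb
  obtain ⟨j0, hj0⟩ := hJ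
  obtain ⟨b0, hb0⟩ := hne j0
  rcases key _ hfin ⟨b0, j0, hj0, hb0⟩ with
    ⟨p, ⟨a, ha, hp⟩, q, ⟨b, hb, hq⟩, h⟩ | ⟨p, ⟨a, ha, hp⟩, q, ⟨b, hb, hq⟩, r, ⟨c, hc, hr⟩, h⟩
  · refine Or.inl ⟨a, ha, b, hb, fun y h1 h2 t ht => ?_⟩
    rw [hF] at h1 h2 ⊢
    exact ⟨h1.1, fun s hs => h y (h1.2 p hp) (h2.2 q hq) s ⟨t, ht, hs⟩⟩
  · refine Or.inr ⟨a, ha, b, hb, c, hc, fun y h1 h2 h3 => ?_⟩
    rw [hF] at h1 h2 h3
    exact h y (h1.2 p hp) (h2.2 q hq) (h3.2 r hr)

theorem arcs_mem (m : ℕ) : Semigrp.of (arcs m).El ∈ generated SS :=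
  mem_generated _ two_or_three

/-- Three members with empty intersection. -/
def Z {m : ℕ} (A B C : (arcs m).El) : Prop := ∀ y, y ∈ A.1 → y ∈ B.1 → y ∉ C.1

theorem Z.swap12 {m : ℕ} {A B C : (arcs m).El} (h : Z A B C) : Z B A C :=
  fun y h1 h2 => h y h2 h1

theorem Z.swap23 {m : ℕ} {A B C : (arcs m).El} (h : Z A B C) : Z A C B :=
  fun y h1 h2 h3 => h y h1 h3 h2

theorem Z.exchange {m : ℕ} {A B C : (arcs m).El} (h : Z A B C) (D : (arcs m).El)
    (h2 : ¬ Z A C D) (h3 : ¬ Z B C D) : Z A B D := by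
  intro x xA xB xD
  simp only [Z, not_forall, not_not] at h2 h3
  obtain ⟨y, yA, yC, yD⟩ := h2
  obtain ⟨z, zB, zC, zD⟩ := h3
  have xC := h x xA xB
  have yB : y ∉ B.1 := fun e => h y yA e yC
  have zA : z ∉ A.1 := fun e => h z e zB zC
  obtain ⟨FA, -, -, hA⟩ := A.2
  obtain ⟨FB, -, -, hB⟩ := B.2
  obtain ⟨FC, -, -, hC⟩ := C.2
  obtain ⟨FD, ⟨d, hd⟩, -, hD⟩ := D.2
  rw [hA] at xA yA zA
  rw [hB] at xB yB zB
  rw [hC] at xC yC zC
  rw [hD] at xD yD zD
  simp only [not_and, not_forall] at xC yB zA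
  obtain ⟨a, ha, a3⟩ := zA zB.1
  obtain ⟨b, hb, b2⟩ := yB yA.1
  obtain ⟨c, hc, c1⟩ := xC xA.1
  exact four (xA.2 a ha) (yA.2 a ha) a3 (xB.2 b hb) b2 (zB.2 b hb) c1 (yC.2 c hc) (zC.2 c hc)
    (xD.2 d hd) (yD.2 d hd) (zD.2 d hd)

/-- The inclusion `x_0 x_1 ⋯ x_{2k} ∈ {words whose letters lie in one window}`. -/
def I (k : ℕ) : Inclusion :=
  ⟨⟨0, (List.range (2 * k)).map (· + 1)⟩,
    {v | ∃ i ≤ 2 * k, ∀ j ∈ lets v, j ≤ 2 * k ∧ R j i}⟩

theorem mem_lhs (k j : ℕ) : j ∈ lets (I k).lhs ↔ j ≤ 2 * k := by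
  simp only [I, lets, List.mem_cons, List.mem_map, List.mem_range]
  constructor
  · rintro (h | ⟨a, h1, h2⟩) <;> omega
  · intro h
    rcases j with _ | j
    · exact Or.inl rfl
    · exact Or.inr ⟨j, by omega, rfl⟩

theorem not_sat (k : ℕ) (hk : 1 ≤ k) : ¬ Satisfies (Semigrp.of (arcs (2 * k + 1)).El) (I k) := by
  intro h
  replace h := (sat_iff (arcs (2 * k + 1)) (I k).lhs (I k).rhs).1 h
  obtain ⟨v, ⟨i, hi, hv⟩, hh⟩ := h (fun j => ⟨{y | y < 2 * k + 1 ∧ R (min j (2 * k)) y},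
    {min j (2 * k)}, Set.singleton_nonempty _, by
      intro b hb
      rw [Set.mem_singleton_iff] at hb
      omega, by simp⟩)
  have h1 := (hh i).2 (fun j hj => ⟨by omega, by
    rw [min_eq_left (hv j hj).1]; exact (hv j hj).2⟩)
  have e0 := (h1 0 ((mem_lhs k 0).2 (by omega))).2
  have e1 := (h1 1 ((mem_lhs k 1).2 (by omega))).2
  have e2 := (h1 (2 * k) ((mem_lhs k _).2 le_rfl)).2
  unfold R at e0 e1 e2
  omega

theorem sat_large (m k : ℕ) (hk : Nat.card (arcs m).El ≤ k) :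
    Satisfies (Semigrp.of (arcs m).El) (I k) := by
  refine (sat_iff (arcs m) (I k).lhs (I k).rhs).2 fun φ => ?_
  simp only [mem_lhs]
  have win : ∀ a b c i, a ≤ 2 * k → b ≤ 2 * k → c ≤ 2 * k → i ≤ 2 * k → R a i → R b i → R c i →
      (⟨a, [b, c]⟩ : FreeSemigroup ℕ) ∈ (I k).rhs := by
    intro a b c i ha hb hc hi h1 h2 h3
    refine ⟨i, hi, fun j hj => ?_⟩
    simp only [lets, List.mem_cons, List.not_mem_nil, or_false] at hj
    rcases hj with rfl | rfl | rfl
    exacts [⟨ha, h1⟩, ⟨hb, h2⟩, ⟨hc, h3⟩]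
  have pair : ∀ a b, a ≤ 2 * k → b ≤ 2 * k → ∃ i ≤ 2 * k, R a i ∧ R b i := by
    intro a b ha hb
    by_cases hp : a % 2 = b % 2
    · exact ⟨max a b, by omega, by unfold R; omega, by unfold R; omega⟩
    · exact ⟨min a b, by omega, by unfold R; omega, by unfold R; omega⟩
  rcases two_or_three φ {j | j ≤ 2 * k} ⟨0, Nat.zero_le _⟩ with
    ⟨a, ha, b, hb, h⟩ | ⟨a, ha, b, hb, c, hc, h⟩
  · obtain ⟨i, hi, h1, h2⟩ := pair a b ha hb
    refine ⟨_, win a b b i ha hb hb hi h1 h2 h2, fun y => ?_⟩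
    simp only [lets, List.mem_cons, List.not_mem_nil, or_false, or_imp, forall_and, forall_eq]
    exact ⟨fun hy => ⟨hy a ha, hy b hb, hy b hb⟩, fun hy => h y hy.1 hy.2.1⟩
  by_contra hn
  have nz : ∀ p q r i, p ≤ 2 * k → q ≤ 2 * k → r ≤ 2 * k → i ≤ 2 * k → R p i → R q i → R r i →
      ¬ Z (φ p) (φ q) (φ r) := by
    intro p q r i hp hq hr hi h1 h2 h3 hz
    refine hn ⟨_, win p q r i hp hq hr hi h1 h2 h3, fun y => ?_⟩
    simp only [lets, List.mem_cons, List.not_mem_nil, or_false, or_imp, forall_and, forall_eq]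
    exact ⟨fun hy => absurd (hy c hc) (h y (hy a ha) (hy b hb)),
      fun hy => absurd hy.2.2 (hz y hy.1 hy.2.1)⟩
  -- a triple with empty intersection alternates in parity
  have nz' : ∀ p q r, p ≤ 2 * k → q ≤ 2 * k → r ≤ 2 * k → Z (φ p) (φ q) (φ r) →
      (p % 2 = q % 2 ∧ r % 2 ≠ p % 2 ∧ (p < r ∧ r < q ∨ q < r ∧ r < p)) ∨
      (p % 2 = r % 2 ∧ q % 2 ≠ p % 2 ∧ (p < q ∧ q < r ∨ r < q ∧ q < p)) ∨
      (q % 2 = r % 2 ∧ p % 2 ≠ q % 2 ∧ (q < p ∧ p < r ∨ r < p ∧ p < q)) := by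
    intro p q r hp hq hr hz
    have e1 : ¬ (R p p ∧ R q p ∧ R r p) := fun g => nz p q r p hp hq hr hp g.1 g.2.1 g.2.2 hz
    have e2 : ¬ (R p q ∧ R q q ∧ R r q) := fun g => nz p q r q hp hq hr hq g.1 g.2.1 g.2.2 hz
    have e3 : ¬ (R p r ∧ R q r ∧ R r r) := fun g => nz p q r r hp hq hr hr g.1 g.2.1 g.2.2 hz
    unfold R at e1 e2 e3
    omega
  have ex : ∀ p q r s, p ≤ 2 * k → q ≤ 2 * k → r ≤ 2 * k → s ≤ 2 * k → Z (φ p) (φ q) (φ r) →
      Z (φ p) (φ q) (φ s) ∨ Z (φ p) (φ r) (φ s) ∨ Z (φ q) (φ r) (φ s) := by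
    intro p q r s _ _ _ _ hz
    by_contra hc
    simp only [not_or] at hc
    exact hc.1 (hz.exchange (φ s) hc.2.1 hc.2.2)
  -- moving one entry of an alternating triple
  have mv3 : ∀ p q r s, p ≤ 2 * k → q ≤ 2 * k → r ≤ 2 * k → s ≤ 2 * k → Z (φ p) (φ q) (φ r) →
      s % 2 = r % 2 → (p < r ↔ p < s) → (q < r ↔ q < s) →
      Z (φ p) (φ q) (φ s) := by
    intro p q r s hp hq hr hs hz e1 e2 e3
    have f0 := nz' p q r hp hq hr hz
    rcases ex p q r s hp hq hr hs hz with h1 | h1 | h1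
    · exact h1
    · have f1 := nz' p r s hp hr hs h1
      rw [e1] at f1
      generalize p % 2 = P, r % 2 = Q at f1
      omega
    · have f1 := nz' q r s hq hr hs h1
      rw [e1] at f1
      generalize q % 2 = P, r % 2 = Q at f1
      omega
  have start : ∃ p q r, p < q ∧ q < r ∧ r ≤ 2 * k ∧ p % 2 = 0 ∧ q % 2 = 1 ∧ r % 2 = 0 ∧
      Z (φ p) (φ q) (φ r) := by
    have sorted : ∃ p q r, p < q ∧ q < r ∧ r ≤ 2 * k ∧ Z (φ p) (φ q) (φ r) := by
      have hz : Z (φ a) (φ b) (φ c) := h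
      have f0 := nz' a b c ha hb hc hz
      simp only [Set.mem_ofPred_eq] at ha hb hc
      rcases (show (a < b ∧ b < c) ∨ (a < c ∧ c < b) ∨ (b < a ∧ a < c) ∨ (b < c ∧ c < a) ∨
        (c < a ∧ a < b) ∨ (c < b ∧ b < a) by omega) with e | e | e | e | e | e
      · exact ⟨a, b, c, e.1, e.2, hc, hz⟩
      · exact ⟨a, c, b, e.1, e.2, hb, hz.swap23⟩
      · exact ⟨b, a, c, e.1, e.2, hc, hz.swap12⟩
      · exact ⟨b, c, a, e.1, e.2, ha, hz.swap12.swap23⟩
      · exact ⟨c, a, b, e.1, e.2, hb, hz.swap23.swap12⟩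
      · exact ⟨c, b, a, e.1, e.2, ha, hz.swap12.swap23.swap12⟩
    obtain ⟨p, q, r, h1, h2, h3, hz⟩ := sorted
    have f0 := nz' p q r (by omega) (by omega) h3 hz
    by_cases hp : p % 2 = 0
    · exact ⟨p, q, r, h1, h2, h3, hp, by omega, by omega, hz⟩
    · refine ⟨0, p, q, by omega, h1, by omega, rfl, by omega, by omega, ?_⟩
      rcases ex p q r 0 (by omega) (by omega) h3 (by omega) hz with g | g | g
      · exact g.swap23.swap12
      · have f1 := nz' p r 0 (by omega) h3 (by omega) g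
        omega
      · have f1 := nz' q r 0 (by omega) h3 (by omega) g
        omega
  obtain ⟨p, q, r, h1, h2, h3, e1, e2, e3, hz⟩ := start
  have all : ∀ s t, s < t → t ≤ k → Z (φ (2 * s)) (φ (2 * s + 1)) (φ (2 * t)) := by
    intro s t hst ht
    have g1 := mv3 p q r (2 * k) (by omega) (by omega) h3 le_rfl hz (by omega) (by omega)
      (by omega)
    have g2 := mv3 q (2 * k) p 0 (by omega) le_rfl (by omega) (by omega) g1.swap12.swap23
      (by omega) (by omega) (by omega)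
    have g3 := mv3 (2 * k) 0 q (2 * s + 1) le_rfl (by omega) (by omega) (by omega)
      g2.swap12.swap23 (by omega) (by omega) (by omega)
    have g4 := mv3 (2 * s + 1) (2 * k) 0 (2 * s) (by omega) le_rfl (by omega) (by omega)
      g3.swap23.swap12 (by omega) (by omega) (by omega)
    exact mv3 (2 * s) (2 * s + 1) (2 * k) (2 * t) (by omega) (by omega) le_rfl (by omega)
      g4.swap23.swap12 (by omega) (by omega) (by omega)
  have hne : ∀ s t, s < t → t ≤ k → φ (2 * s) ≠ φ (2 * t) := by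
    intro s t hst ht e
    have g := all s t hst ht
    rw [← e] at g
    have f := nz' _ _ _ (by omega) (by omega) (by omega) g
    omega
  have inj : Function.Injective fun s : Fin (k + 1) => φ (2 * s.1) := by
    intro s t e
    rcases lt_trichotomy s.1 t.1 with g | g | g
    · exact absurd e (hne _ _ g (by omega))
    · exact Fin.ext g
    · exact absurd e.symm (hne _ _ g (by omega))
  have := Nat.card_le_card_of_injective _ inj
  rw [Nat.card_eq_fintype_card, Fintype.card_fin] at this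
  omega

/-- The subvariety cut out by the inclusion `I (k + 1)`. -/
def W (k : ℕ) : Set Semigrp.{0} :=
  {T | ∀ ι ∈ insert (I (k + 1)) {ι | Satisfies SS ι}, Satisfies T ι}

theorem infinite_SS : {V | IsInclusiveVariety V ∧ V ⊆ generated SS}.Infinite := by
  intro hfin
  have hW : ∀ k, W k ∈ {V | IsInclusiveVariety V ∧ V ⊆ generated SS} := fun k =>
    ⟨⟨_, rfl⟩, fun T hT ι hι => hT ι (Or.inr hι)⟩
  have := hfin.to_subtype
  obtain ⟨V, hV⟩ := Finite.exists_infinite_fiber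
    (fun k => (⟨W k, hW k⟩ : {V | IsInclusiveVariety V ∧ V ⊆ generated SS}))
  rw [Set.infinite_coe_iff] at hV
  obtain ⟨l, hl⟩ := hV.nonempty
  obtain ⟨k, hk, hlt⟩ := hV.exists_gt (Nat.card (arcs (2 * (l + 1) + 1)).El)
  have e : W k = W l := by
    have e1 : (⟨W k, hW k⟩ : {V | IsInclusiveVariety V ∧ V ⊆ generated SS}) = V := hk
    have e2 : (⟨W l, hW l⟩ : {V | IsInclusiveVariety V ∧ V ⊆ generated SS}) = V := hl
    exact congrArg Subtype.val (e1.trans e2.symm)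
  have hmem : Semigrp.of (arcs (2 * (l + 1) + 1)).El ∈ W k := by
    rintro ι (rfl | hι)
    · exact sat_large _ _ (by omega)
    · exact arcs_mem _ ι hι
  rw [e] at hmem
  exact not_sat (l + 1) (by omega) (hmem _ (Or.inl rfl))

/-! Semilattices with at most seven elements -/

/-- Semilattices. -/
structure SL (T : Type) [Semigroup T] : Prop where
  comm : ∀ a b : T, a * b = b * a
  idem : ∀ a : T, a * a = a

/-- Breadth at most two. -/
def Br (T : Type) [Semigroup T] : Prop :=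
  ∀ a b c : T, a * b * c = a * b ∨ a * b * c = a * c ∨ a * b * c = b * c

section low

variable {T T' : Type} [Semigroup T] [Semigroup T']

theorem SL.lc (h : SL T) (a b c : T) : a * (b * c) = b * (a * c) := by
  rw [← mul_assoc, h.comm a b, mul_assoc]

theorem SL.li (h : SL T) (a b : T) : a * (a * b) = a * b := by
  rw [← mul_assoc, h.idem]

theorem SL.ri (h : SL T) (a b : T) : b * (a * b) = a * b := by
  rw [h.lc, h.idem]

theorem lift_above (φ : ℕ → T) (v : FreeSemigroup ℕ) {e : T} (h : ∀ z ∈ lets v, φ z * e = e) :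
    FreeSemigroup.lift φ v * e = e := by
  induction v using FreeSemigroup.recOnMul with
  | ih1 x => exact h x List.mem_cons_self
  | ih2 x v h1 h2 =>
    rw [lets_mul] at h
    rw [map_mul, mul_assoc, h2 fun z hz => h z (List.mem_append_right _ hz),
      h1 fun z hz => h z (List.mem_append_left _ hz)]

theorem SL.le_lift (hT : SL T) (φ : ℕ → T) (v : FreeSemigroup ℕ) :
    ∀ z ∈ lets v, φ z * FreeSemigroup.lift φ v = FreeSemigroup.lift φ v := by
  induction v using FreeSemigroup.recOnMul with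
  | ih1 x =>
    intro z hz
    rw [lets_of, List.mem_singleton] at hz
    rw [hz]
    exact hT.idem _
  | ih2 x v h1 h2 =>
    intro z hz
    rw [lets_mul, List.mem_append] at hz
    rw [map_mul]
    rcases hz with hz | hz
    · rw [← mul_assoc, h1 z hz]
    · rw [hT.lc, h2 z hz]

theorem SL.lift_eq (hT : SL T) (φ : ℕ → T) (v : FreeSemigroup ℕ) {t : T}
    (h : ∀ z ∈ lets v, φ z * t = t) {x y : ℕ} (hx : x ∈ lets v) (hy : y ∈ lets v)
    (e : φ x * φ y = t) : FreeSemigroup.lift φ v = t := by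
  have h1 := lift_above φ v h
  rw [← h1, hT.comm, ← e, mul_assoc, hT.le_lift φ v y hy, hT.le_lift φ v x hx]

theorem SL.two (hT : SL T) (hB : Br T) (φ : ℕ → T) (v : FreeSemigroup ℕ) :
    ∃ x ∈ lets v, ∃ y ∈ lets v, φ x * φ y = FreeSemigroup.lift φ v := by
  induction v using FreeSemigroup.recOnMul with
  | ih1 x => exact ⟨x, List.mem_cons_self, x, List.mem_cons_self, hT.idem _⟩
  | ih2 x v _ h2 =>
    obtain ⟨p, hp, q, hq, e⟩ := h2
    have hx : x ∈ lets (FreeSemigroup.of x * v) := List.mem_cons_self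
    have hv : ∀ z ∈ lets v, z ∈ lets (FreeSemigroup.of x * v) := fun z hz =>
      List.mem_append_right (lets (FreeSemigroup.of x)) hz
    rw [map_mul, FreeSemigroup.lift_of, ← e, ← mul_assoc]
    rcases hB (φ x) (φ p) (φ q) with g | g | g
    · exact ⟨x, hx, p, hv p hp, g.symm⟩
    · exact ⟨x, hx, q, hv q hq, g.symm⟩
    · exact ⟨p, hv p hp, q, hv q hq, g.symm⟩

/-- Four local properties of an element. -/
def loc (s : T) : Prop × Prop × Prop × Prop :=
  (∃ l, l * s ≠ s, ∃ m, m * s = s ∧ m ≠ s, ∃ a b, a * b = s ∧ a ≠ s ∧ b ≠ s,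
    ∃ a b m, a * b = s ∧ m * s = s ∧ m * a ≠ s ∧ m * b ≠ s)

theorem build (hT : SL T) (hT' : SL T') (φ : ℕ → T) (u : FreeSemigroup ℕ) {t : T}
    (ht : FreeSemigroup.lift φ u = t) {s : T'} (hl : (∃ l, l * t ≠ t) → ∃ l, l * s ≠ s)
    (up : ℕ → T') (h1 : ∀ z, φ z * t = t → φ z ≠ t → up z * s = s)
    (h2 : (∃ x ∈ lets u, φ x = t) ∨
      ∃ x ∈ lets u, ∃ y ∈ lets u, φ x ≠ t ∧ φ y ≠ t ∧ up x * up y = s)
    (h3 : ∀ v, (∀ z ∈ lets v, φ z * t = t ∧ φ z ≠ t) →
      (∀ e, (∀ z ∈ lets v, up z * e = e) → s * e = e) → FreeSemigroup.lift φ v = t) :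
    ∃ ψ : ℕ → T', ∀ v, FreeSemigroup.lift ψ u = FreeSemigroup.lift ψ v →
      FreeSemigroup.lift φ u = FreeSemigroup.lift φ v := by
  classical
  obtain ⟨l, hl⟩ : ∃ l, (∃ l, l * t ≠ t) → l * s ≠ s := by
    by_cases h : ∃ l, l * t ≠ t
    · exact (hl h).imp fun _ g _ => g
    · exact ⟨s, fun g => absurd g h⟩
  obtain ⟨ψ, e1, e2, e3⟩ : ∃ ψ : ℕ → T', (∀ z, φ z * t ≠ t → ψ z = l) ∧
      (∀ z, φ z = t → ψ z = s) ∧ ∀ z, φ z * t = t → φ z ≠ t → ψ z = up z :=
    ⟨fun z => if φ z * t = t then (if φ z = t then s else up z) else l,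
      fun z h => if_neg h, fun z h => (if_pos (by rw [h, hT.idem])).trans (if_pos h),
      fun z h g => (if_pos h).trans (if_neg g)⟩
  have hu : ∀ z ∈ lets u, φ z * t = t := fun z hz => ht ▸ hT.le_lift φ u z hz
  have ab : ∀ z, φ z * t = t → ψ z * s = s := fun z hz => by
    by_cases g : φ z = t
    · rw [e2 z g, hT'.idem]
    · rw [e3 z hz g, h1 z hz g]
  have hs : FreeSemigroup.lift ψ u = s := by
    rcases h2 with ⟨x, hx, g⟩ | ⟨x, hx, y, hy, g1, g2, g⟩
    · exact hT'.lift_eq ψ u (fun z hz => ab z (hu z hz)) hx hx (by rw [e2 x g, hT'.idem])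
    · exact hT'.lift_eq ψ u (fun z hz => ab z (hu z hz)) hx hy
        (by rw [e3 x (hu x hx) g1, e3 y (hu y hy) g2, g])
  refine ⟨ψ, fun v hv => ?_⟩
  rw [hs] at hv
  rw [ht]
  have hv1 : ∀ z ∈ lets v, φ z * t = t := fun z hz => by
    by_contra g
    have g1 := hT'.le_lift ψ v z hz
    rw [← hv, e1 z g] at g1
    exact hl ⟨_, g⟩ g1
  by_cases g : ∃ x ∈ lets v, φ x = t
  · obtain ⟨x, hx, g⟩ := g
    exact (hT.lift_eq φ v hv1 hx hx (by rw [g, hT.idem])).symm
  · have hv2 : ∀ z ∈ lets v, φ z ≠ t := fun z hz e => g ⟨z, hz, e⟩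
    refine (h3 v (fun z hz => ⟨hv1 z hz, hv2 z hz⟩) fun e he => ?_).symm
    rw [hv]
    exact lift_above ψ v fun z hz => by rw [e3 z (hv1 z hz) (hv2 z hz), he z hz]

/-- The fibre of a word in a semilattice of breadth two is governed by the local properties of
its value. -/
theorem transfer (hT : SL T) (hB : Br T) (hT' : SL T') (φ : ℕ → T) (u : FreeSemigroup ℕ) {s : T'}
    (h : loc s = loc (FreeSemigroup.lift φ u)) :
    ∃ ψ : ℕ → T', ∀ v, FreeSemigroup.lift ψ u = FreeSemigroup.lift ψ v →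
      FreeSemigroup.lift φ u = FreeSemigroup.lift φ v := by
  classical
  obtain ⟨x, hx, y, hy, e⟩ := hT.two hB φ u
  generalize ht : FreeSemigroup.lift φ u = t at h e
  simp only [loc, Prod.mk.injEq, eq_iff_iff] at h
  obtain ⟨c0, c1, c2, c3⟩ := h
  rw [← ht]
  by_cases g : ∃ x ∈ lets u, φ x = t
  · obtain ⟨m, hm⟩ : ∃ m, (∃ m, m * t = t ∧ m ≠ t) → m * s = s ∧ m ≠ s := by
      by_cases h : ∃ m, m * t = t ∧ m ≠ t
      · exact (c1.2 h).imp fun _ g _ => g
      · exact ⟨s, fun g => absurd g h⟩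
    refine build hT hT' φ u ht c0.2 (fun _ => m) (fun z g1 g2 => (hm ⟨_, g1, g2⟩).1) (Or.inl g)
      fun v g1 g2 => ?_
    have g3 := hm ⟨_, g1 v.head List.mem_cons_self⟩
    exact absurd ((g2 m fun _ _ => hT'.idem m).symm.trans ((hT'.comm _ _).trans g3.1)) g3.2
  have gx : φ x ≠ t := fun e => g ⟨x, hx, e⟩
  have gy : φ y ≠ t := fun e => g ⟨y, hy, e⟩
  have hxy : y ≠ x := fun g => gx (by rw [← e, g, hT.idem])
  by_cases g' : ∃ a b m, a * b = t ∧ m * t = t ∧ m * a ≠ t ∧ m * b ≠ t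
  · obtain ⟨a, b, m, rfl, e1, e2, e3⟩ := c3.2 g'
    refine build hT hT' φ u ht c0.2 (fun z => if z = x then a else if z = y then b else m)
      (fun z _ _ => ?_) (Or.inr ⟨x, hx, y, hy, gx, gy, by simp [hxy]⟩) fun v g1 g2 => ?_
    · split_ifs
      exacts [hT'.li a b, hT'.ri a b, e1]
    have vx : x ∈ lets v := by
      by_contra hn
      refine e3 ((g2 (m * b) fun z hz => ?_).symm.trans ?_)
      · have : z ≠ x := fun g => hn (g ▸ hz)
        simp only [this, if_false]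
        split_ifs
        exacts [hT'.ri m b, hT'.li m b]
      · rw [hT'.lc, hT'.comm _ b, hT'.ri, e1]
    have vy : y ∈ lets v := by
      by_contra hn
      refine e2 ((g2 (m * a) fun z hz => ?_).symm.trans ?_)
      · have : z ≠ y := fun g => hn (g ▸ hz)
        simp only [this, if_false]
        split_ifs
        exacts [hT'.ri m a, hT'.li m a]
      · rw [hT'.lc, hT'.comm _ a, hT'.li, e1]
    exact hT.lift_eq φ v (fun z hz => (g1 z hz).1) vx vy e
  · obtain ⟨a, b, rfl, e1, e2⟩ := c2.2 ⟨_, _, e, gx, gy⟩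
    refine build hT hT' φ u ht c0.2 (fun z => if φ x * φ z = t then b else a)
      (fun z _ _ => ?_) (Or.inr ⟨x, hx, y, hy, gx, gy, by simp [hT.idem, gx, e]⟩)
      fun v g1 g2 => ?_
    · split_ifs
      exacts [hT'.ri a b, hT'.li a b]
    obtain ⟨w, hw, ew⟩ : ∃ w ∈ lets v, φ x * φ w = t := by
      by_contra hn
      refine e1 ((g2 a fun z hz => ?_).symm.trans ?_)
      · rw [if_neg fun g => hn ⟨z, hz, g⟩, hT'.idem]
      · rw [hT'.comm _ a, hT'.li]
    obtain ⟨z, hz, ez⟩ : ∃ z ∈ lets v, φ x * φ z ≠ t := by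
      by_contra hn
      refine e2 ((g2 b fun z hz => ?_).symm.trans ?_)
      · rw [if_pos (by_contra fun g => hn ⟨z, hz, g⟩), hT'.idem]
      · rw [hT'.comm _ b, hT'.ri]
    refine hT.lift_eq φ v (fun z hz => (g1 z hz).1) hz hw (by_contra fun g => g' ?_)
    exact ⟨φ x, φ w, φ z, ew, (g1 z hz).1, by rwa [hT.comm], g⟩

end low

theorem finite_br :
    {V : Set Semigrp.{0} | IsInclusiveVariety V ∧ ∀ T ∈ V, SL T ∧ Br T}.Finite := by
  have key : ∀ V V' : Set Semigrp.{0}, (∀ T ∈ V, SL T ∧ Br T) → IsInclusiveVariety V' →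
      (∀ T ∈ V', SL T ∧ Br T) → {κ | ∃ T ∈ V, ∃ s : T, loc s = κ} ⊆
        {κ | ∃ T ∈ V', ∃ s : T, loc s = κ} → V ⊆ V' := by
    rintro V _ h1 ⟨A, rfl⟩ h2 h T hT ι hι φ
    obtain ⟨T', hT', s, hs⟩ := h ⟨T, hT, FreeSemigroup.lift φ ι.lhs, rfl⟩
    obtain ⟨ψ, hψ⟩ := transfer (h1 T hT).1 (h1 T hT).2 (h2 T' hT').1 φ ι.lhs hs
    obtain ⟨v, hv, e⟩ := hT' ι hι ψ
    exact ⟨v, hv, hψ v e⟩
  refine Set.Finite.of_finite_image (f := fun V => {κ | ∃ T ∈ V, ∃ s : T, loc s = κ})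
    (Set.toFinite _) fun V hV V' hV' e => ?_
  exact (key V V' hV.2 hV'.1 hV'.2 e.le).antisymm (key V' V hV'.2 hV.1 hV.2 e.ge)

theorem sl_of_mem {S T : Semigrp.{0}} (hS : SL S) (hT : T ∈ generated S) : SL T := by
  constructor
  · intro a b
    have h : Satisfies S ⟨.of 0 * .of 1, {.of 1 * .of 0}⟩ := fun φ =>
      ⟨_, Set.mem_singleton _, hS.comm (φ 0) (φ 1)⟩
    obtain ⟨v, hv, e⟩ := hT _ h fun i => if i = 0 then a else b
    rw [Set.mem_singleton_iff.1 hv] at e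
    exact e
  · intro a
    have h : Satisfies S ⟨.of 0 * .of 0, {.of 0}⟩ := fun φ =>
      ⟨_, Set.mem_singleton _, hS.idem (φ 0)⟩
    obtain ⟨v, hv, e⟩ := hT _ h fun _ => a
    rw [Set.mem_singleton_iff.1 hv] at e
    exact e

theorem br_of_mem {S T : Semigrp.{0}} (hS : Br S) (hT : T ∈ generated S) : Br T := by
  intro a b c
  obtain ⟨v, hv, e⟩ := hT ⟨.of 0 * .of 1 * .of 2, {.of 0 * .of 1, .of 0 * .of 2, .of 1 * .of 2}⟩
    (fun φ => by
      rcases hS (φ 0) (φ 1) (φ 2) with g | g | g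
      · exact ⟨_, Or.inl rfl, g⟩
      · exact ⟨_, Or.inr (Or.inl rfl), g⟩
      · exact ⟨_, Or.inr (Or.inr rfl), g⟩)
    (fun i => if i = 0 then a else if i = 1 then b else c)
  rcases hv with rfl | rfl | rfl
  exacts [Or.inl e, Or.inr (Or.inl e), Or.inr (Or.inr e)]

section three

variable {T : Type} [Semigroup T]

/-- The seven products of three elements. -/
def pr (a b c : T) : Fin 7 → T := ![a, b, c, a * b, a * c, b * c, a * (b * c)]

/-- The multiplication table of the free semilattice on three generators. -/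
def tb : Fin 7 → Fin 7 → Fin 7 :=
  ![![0, 3, 4, 3, 4, 6, 6], ![3, 1, 5, 3, 6, 5, 6], ![4, 5, 2, 6, 4, 5, 6], ![3, 3, 6, 3, 6, 6, 6],
    ![4, 6, 4, 6, 4, 6, 6], ![6, 5, 5, 6, 6, 5, 6], ![6, 6, 6, 6, 6, 6, 6]]

theorem SL.pr_mul (h : SL T) (a b c : T) (i j : Fin 7) :
    pr a b c i * pr a b c j = pr a b c (tb i j) := by
  have : Std.Commutative (α := T) (· * ·) := ⟨h.comm⟩
  have : Std.IdempotentOp (α := T) (· * ·) := ⟨h.idem⟩
  fin_cases i <;> fin_cases j <;> simp only [pr, tb] <;> simp <;> ac_rfl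

theorem SL.pr_inj (h : SL T) {a b c : T}
    (g : ¬(a * b * c = a * b ∨ a * b * c = a * c ∨ a * b * c = b * c)) :
    Function.Injective (pr a b c) := by
  intro i j e
  rw [mul_assoc] at g
  have k : ∀ m : Fin 7, pr a b c (tb i m) = pr a b c (tb j m) := fun m => by
    rw [← h.pr_mul, ← h.pr_mul, e]
  have n : ∀ p q : Fin 7, pr a b c p = pr a b c q → p = 6 → q ≠ 3 ∧ q ≠ 4 ∧ q ≠ 5 := by
    rintro _ q e rfl
    refine ⟨?_, ?_, ?_⟩ <;> rintro rfl
    exacts [g (Or.inl e), g (Or.inr (Or.inl e)), g (Or.inr (Or.inr e))]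
  have k1 := fun m => n _ _ (k m)
  have k2 := fun m => n _ _ (k m).symm
  revert k1 k2
  clear k e
  revert i j
  decide

theorem SL.pr_lift (h : SL T) (a b c : T) (σ : ℕ → Fin 7) (v : FreeSemigroup ℕ) :
    FreeSemigroup.lift (fun z => pr a b c (σ z)) v =
      pr a b c (v.tail.foldl (fun i z => tb i (σ z)) (σ v.head)) := by
  obtain ⟨x, L⟩ := v
  change (L.foldl (fun p z => p * pr a b c (σ z)) (pr a b c (σ x))) = _
  generalize σ x = i
  induction L generalizing i with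
  | nil => rfl
  | cons z L ih => rw [List.foldl_cons, List.foldl_cons, h.pr_mul, ih]

end three

theorem finite_small (S : Semigrp.{0}) [Finite S] (hS : SL S) (hc : Nat.card S ≤ 7) :
    {V | IsInclusiveVariety V ∧ V ⊆ generated S}.Finite := by
  refine (finite_br.insert (generated S)).subset ?_
  rintro _ ⟨⟨A, rfl⟩, hV⟩
  by_cases hB : ∀ T ∈ {T | ∀ ι ∈ A, Satisfies T ι}, Br T
  · exact Or.inr ⟨⟨A, rfl⟩, fun T hT => ⟨sl_of_mem hS (hV hT), hB T hT⟩⟩
  simp only [not_forall] at hB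
  obtain ⟨T, hT, hB⟩ := hB
  have hT' := sl_of_mem hS (hV hT)
  have hB' : ¬Br S := fun g => hB (br_of_mem g (hV hT))
  simp only [Br, not_forall] at hB hB'
  obtain ⟨a, b, c, g⟩ := hB'
  obtain ⟨a', b', c', g'⟩ := hB
  have bij : Function.Bijective (pr a b c) :=
    (hS.pr_inj g).bijective_of_nat_card_le (by simpa using hc)
  refine Or.inl (hV.antisymm fun U hU ι hι => hU ι fun φ => ?_)
  choose σ hσ using fun z => bij.2 (φ z)
  obtain ⟨v, hv, e⟩ := hT ι hι fun z => pr a' b' c' (σ z)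
  refine ⟨v, hv, ?_⟩
  rw [hT'.pr_lift, hT'.pr_lift] at e
  rw [← funext hσ, hS.pr_lift, hS.pr_lift, hT'.pr_inj g' e]

theorem result : IsLeast {n : ℕ | ∃ S : Semigrp.{0}, Finite S ∧ Nat.card S = n ∧
    (∀ a b : S, a * b = b * a) ∧ (∀ a : S, a * a = a) ∧
    {V | IsInclusiveVariety V ∧ V ⊆ generated S}.Infinite} 8 := by
  refine ⟨⟨SS, inferInstanceAs (Finite {A : Set (Fin 3) // A ∈ full.carrier}), card_SS,
    fun a b => Subtype.ext (Set.inter_comm _ _), fun a => Subtype.ext (Set.inter_self _),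
    infinite_SS⟩, ?_⟩
  rintro _ ⟨S, _, rfl, h1, h2, h3⟩
  by_contra hn
  exact h3 (finite_small S ⟨h1, h2⟩ (by omega))

end Pool.Agent.Results.MP_ea093d_al.LeastSemilattice
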