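import Mathlib

set_option autoImplicit false

namespace Pool.Agent.Results.MP_ea093d_al.UncountableLattice

/-- An identical inclusion `u ∈ V` over the countably infinite alphabet `ℕ`: a nonempty word `u`
and a set `V` of nonempty words (automatically finite or countably infinite). -/
structure Inclusion where
  lhs : FreeSemigroup ℕ
  rhs : Set (FreeSemigroup ℕ)

/-- `S` satisfies the inclusion: under every assignment of the letters to elements of `S`, the
value of the left side equals the value of at least one word of the right side. -/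
def Satisfies (S : Semigrp.{0}) (ι : Inclusion) : Prop :=
  ∀ φ : ℕ → S, ∃ v ∈ ι.rhs, FreeSemigroup.lift φ ι.lhs = FreeSemigroup.lift φ v

/-- A class of semigroups is an inclusive variety if it consists of all semigroups satisfying
some set of identical inclusions. -/
def IsInclusiveVariety (W : Set Semigrp.{0}) : Prop :=
  ∃ A : Set Inclusion, W = {T | ∀ ι ∈ A, Satisfies T ι}

/-- The inclusive variety generated by `S`: all semigroups satisfying every identical inclusion
that `S` satisfies. -/
def generated (S : Semigrp.{0}) : Set Semigrp.{0} :=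
  {T | ∀ ι : Inclusion, Satisfies S ι → Satisfies T ι}

/-! ### The 3-nilpotent semigroup of a digraph -/

/-- Carrier: generators `gen a`, one nonzero product `prod`, and `zero`. -/
inductive N3 (α : Type) (E : α → α → Prop) : Type
  | gen (a : α) : N3 α E
  | prod : N3 α E
  | zero : N3 α E

namespace N3

variable {α : Type} {E : α → α → Prop}

open Classical in
/-- `gen a * gen b = prod` along an edge, every other product is `zero`. -/
noncomputable def mul : N3 α E → N3 α E → N3 α E
  | gen a, gen b => if E a b then prod else zero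
  | _, _ => zero

theorem mul_cases (x y : N3 α E) : mul x y = prod ∨ mul x y = zero := by
  cases x <;> cases y <;> simp only [mul, or_true]
  split_ifs <;> simp

theorem mul_mul_left (x y z : N3 α E) : mul (mul x y) z = zero := by
  rcases mul_cases x y with h | h <;> rw [h] <;> cases z <;> rfl

theorem mul_mul_right (x y z : N3 α E) : mul x (mul y z) = zero := by
  rcases mul_cases y z with h | h <;> rw [h] <;> cases x <;> rfl

noncomputable instance : Semigroup (N3 α E) where
  mul := mul
  mul_assoc x y z := (mul_mul_left x y z).trans (mul_mul_right x y z).symm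

theorem mul_def (x y : N3 α E) : x * y = mul x y := rfl

theorem zero_mul' (x : N3 α E) : (zero : N3 α E) * x = zero := by cases x <;> rfl

theorem mul_eq_prod {x y : N3 α E} (h : x * y = prod) :
    ∃ a b, x = gen a ∧ y = gen b ∧ E a b := by
  rw [mul_def] at h
  cases x <;> cases y <;> simp only [mul, reduceCtorEq] at h
  split_ifs at h with hE
  exact ⟨_, _, rfl, rfl, hE⟩

theorem gen_mul_gen {a b : α} (h : E a b) : (gen a : N3 α E) * gen b = prod := by
  rw [mul_def]; simp only [mul, if_pos h]

theorem foldl_zero (φ : ℕ → N3 α E) (l : List ℕ) :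
    l.foldl (fun x y => x * φ y) zero = zero := by
  induction l with
  | nil => rfl
  | cons a l ih => rw [List.foldl_cons, zero_mul', ih]

theorem lift_one (φ : ℕ → N3 α E) (x : ℕ) : FreeSemigroup.lift φ ⟨x, []⟩ = φ x := rfl

theorem lift_two (φ : ℕ → N3 α E) (x y : ℕ) :
    FreeSemigroup.lift φ ⟨x, [y]⟩ = φ x * φ y := rfl

theorem lift_three (φ : ℕ → N3 α E) (x y z : ℕ) (l : List ℕ) :
    FreeSemigroup.lift φ ⟨x, y :: z :: l⟩ = zero := by
  rw [FreeSemigroup.lift_mk_eq_foldl, List.foldl_cons, List.foldl_cons]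
  have : φ x * φ y * φ z = zero := mul_mul_left _ _ _
  rw [this]
  exact foldl_zero φ l

theorem lift_eq_gen {φ : ℕ → N3 α E} {v : FreeSemigroup ℕ} {a : α}
    (h : FreeSemigroup.lift φ v = gen a) : ∃ x, v = ⟨x, []⟩ ∧ φ x = gen a := by
  obtain ⟨x, _ | ⟨y, _ | ⟨z, l⟩⟩⟩ := v
  · exact ⟨x, rfl, h⟩
  · rw [lift_two, mul_def] at h
    rcases mul_cases (φ x) (φ y) with h' | h' <;> rw [h'] at h <;> cases h
  · rw [lift_three] at h; cases h

theorem lift_eq_prod {φ : ℕ → N3 α E} (hφ : ∀ x, φ x ≠ prod) {v : FreeSemigroup ℕ}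
    (h : FreeSemigroup.lift φ v = prod) :
    ∃ x y a b, v = ⟨x, [y]⟩ ∧ φ x = gen a ∧ φ y = gen b ∧ E a b := by
  obtain ⟨x, _ | ⟨y, _ | ⟨z, l⟩⟩⟩ := v
  · exact absurd h (hφ x)
  · rw [lift_two] at h
    obtain ⟨a, b, ha, hb, hE⟩ := mul_eq_prod h
    exact ⟨x, y, a, b, rfl, ha, hb, hE⟩
  · rw [lift_three] at h; cases h

end N3

theorem sat_iff (α : Type) (E : α → α → Prop) (u : FreeSemigroup ℕ) (V : Set (FreeSemigroup ℕ)) :
    Satisfies (Semigrp.of (N3 α E)) ⟨u, V⟩ ↔
      ∀ φ : ℕ → N3 α E, ∃ v ∈ V, FreeSemigroup.lift φ u = FreeSemigroup.lift φ v := Iff.rfl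

/-- The digraph `0 → 1`, `2 → 2` on three vertices. -/
def ES (a b : Fin 3) : Prop := (a = 0 ∧ b = 1) ∨ (a = 2 ∧ b = 2)

/-- The five-element witness `{p, q, c, b, 0}` with `p q = c c = b`. -/
noncomputable def SS : Semigrp.{0} := Semigrp.of (N3 (Fin 3) ES)

theorem finite_SS : Finite SS := by
  have : Function.Surjective (fun o : Option (Option (Fin 3)) =>
      (match o with
        | none => N3.zero
        | some none => N3.prod
        | some (some a) => N3.gen a : N3 (Fin 3) ES)) := by
    intro x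
    cases x with
    | gen a => exact ⟨some (some a), rfl⟩
    | prod => exact ⟨some none, rfl⟩
    | zero => exact ⟨none, rfl⟩
  exact Finite.of_surjective _ this

/-- Every digraph semigroup lies in the inclusive variety generated by the witness. -/
theorem mem_generated (α : Type) (E : α → α → Prop) :
    Semigrp.of (N3 α E) ∈ generated SS := by
  rintro ⟨u, V⟩ hι
  replace hι := (sat_iff (Fin 3) ES u V).1 hι
  refine (sat_iff α E u V).2 fun φ => ?_
  obtain ⟨x, _ | ⟨y, _ | ⟨z, l⟩⟩⟩ := u
  · obtain ⟨v, hv, h⟩ := hι (fun t => if t = x then (N3.gen 2 : N3 (Fin 3) ES) else N3.zero)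
    refine ⟨v, hv, ?_⟩
    have h1 : FreeSemigroup.lift
        (fun t => if t = x then (N3.gen 2 : N3 (Fin 3) ES) else N3.zero) v = N3.gen 2 := by
      rw [← h]; exact if_pos rfl
    obtain ⟨w, rfl, hw⟩ := N3.lift_eq_gen h1
    have : w = x := by
      by_contra hne
      simp only [if_neg hne, reduceCtorEq] at hw
    rw [this]
  · by_cases hxy : x = y
    · subst hxy
      obtain ⟨v, hv, h⟩ := hι (fun t => if t = x then (N3.gen 2 : N3 (Fin 3) ES) else N3.zero)
      refine ⟨v, hv, ?_⟩
      have h1 : FreeSemigroup.lift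
          (fun t => if t = x then (N3.gen 2 : N3 (Fin 3) ES) else N3.zero) v = N3.prod := by
        rw [← h]
        refine (N3.lift_two _ x x).trans ?_
        simp only [if_true]
        exact N3.gen_mul_gen (Or.inr ⟨rfl, rfl⟩)
      obtain ⟨s, t, a, b, rfl, hs, ht, -⟩ := N3.lift_eq_prod (by
        intro t; split_ifs <;> simp) h1
      have hs' : s = x := by
        by_contra hne
        simp only [if_neg hne, reduceCtorEq] at hs
      have ht' : t = x := by
        by_contra hne
        simp only [if_neg hne, reduceCtorEq] at ht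
      rw [hs', ht']
    · obtain ⟨v, hv, h⟩ := hι (fun t => if t = x then (N3.gen 0 : N3 (Fin 3) ES) else
        if t = y then N3.gen 1 else N3.zero)
      refine ⟨v, hv, ?_⟩
      have h1 : FreeSemigroup.lift (fun t => if t = x then (N3.gen 0 : N3 (Fin 3) ES) else
          if t = y then N3.gen 1 else N3.zero) v = N3.prod := by
        rw [← h]
        refine (N3.lift_two _ x y).trans ?_
        simp only [if_true, if_neg (Ne.symm hxy)]
        exact N3.gen_mul_gen (Or.inl ⟨rfl, rfl⟩)
      obtain ⟨s, t, a, b, rfl, hs, ht, hE⟩ := N3.lift_eq_prod (by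
        intro t; split_ifs <;> simp) h1
      have key : ∀ (r : ℕ) (c : Fin 3), (if r = x then (N3.gen 0 : N3 (Fin 3) ES) else
          if r = y then N3.gen 1 else N3.zero) = N3.gen c →
          (r = x ∧ c = 0) ∨ (r = y ∧ c = 1) := by
        intro r c hr
        split_ifs at hr with h1 h2
        · exact Or.inl ⟨h1, (N3.gen.inj hr).symm⟩
        · exact Or.inr ⟨h2, (N3.gen.inj hr).symm⟩
      rcases key s a hs with ⟨rfl, rfl⟩ | ⟨rfl, rfl⟩ <;>
        rcases key t b ht with ⟨h2, rfl⟩ | ⟨h2, rfl⟩ <;>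
        first
          | (exfalso; revert hE; unfold ES; decide)
          | (rw [h2])
  · obtain ⟨v, hv, h⟩ := hι (fun _ => (N3.gen 2 : N3 (Fin 3) ES))
    refine ⟨v, hv, ?_⟩
    have h1 : FreeSemigroup.lift (fun _ : ℕ => (N3.gen 2 : N3 (Fin 3) ES)) v = N3.zero := by
      rw [← h]; exact N3.lift_three _ x y z l
    obtain ⟨s, _ | ⟨t, _ | ⟨r, l'⟩⟩⟩ := v
    · rw [N3.lift_one] at h1; cases h1
    · rw [N3.lift_two, N3.gen_mul_gen (E := ES) (Or.inr ⟨rfl, rfl⟩)] at h1; cases h1
    · exact (N3.lift_three φ x y z l).trans (N3.lift_three φ s t r l').symm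

/-- The semigroup of the directed cycle of length `q`. -/
noncomputable def cyc (q : ℕ) : Semigrp.{0} :=
  Semigrp.of (N3 (ZMod q) (fun a b => b = a + 1))

/-- The finite inclusion `x₀³ ∈ {x_i x_{i+1 mod p} : i < p}`. -/
def cycInc (p : ℕ) : Inclusion :=
  ⟨⟨0, [0, 0]⟩, {v | ∃ i < p, v = ⟨i, [(i + 1) % p]⟩}⟩

theorem not_satisfies_cyc (p : ℕ) : ¬ Satisfies (cyc p) (cycInc p) := by
  intro h
  obtain ⟨v, ⟨i, -, rfl⟩, h⟩ :=
    (sat_iff (ZMod p) (fun a b => b = a + 1) _ _).1 h (fun t => (N3.gen (t : ZMod p) : N3 (ZMod p) (fun a b => b = a + 1)))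
  have h1 := (N3.lift_three (fun t : ℕ =>
    (N3.gen (t : ZMod p) : N3 (ZMod p) (fun a b => b = a + 1))) 0 0 0 []).symm.trans h
  rw [N3.lift_two, N3.gen_mul_gen (by simp)] at h1
  cases h1

theorem satisfies_cyc {p q : ℕ} (hp : 0 < p) (hpq : ¬ q ∣ p) : Satisfies (cyc q) (cycInc p) := by
  refine (sat_iff (ZMod q) (fun a b => b = a + 1) _ _).2 fun φ => ?_
  by_contra hcon
  have hedge : ∀ i < p, ∃ a : ZMod q, φ i = N3.gen a ∧ φ ((i + 1) % p) = N3.gen (a + 1) := by
    intro i hi
    have hne : φ i * φ ((i + 1) % p) ≠ (N3.zero : N3 (ZMod q) (fun a b => b = a + 1)) := by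
      intro h0
      exact hcon ⟨⟨i, [(i + 1) % p]⟩, ⟨i, hi, rfl⟩,
        (N3.lift_three φ 0 0 0 []).trans ((N3.lift_two φ i ((i + 1) % p)).trans h0).symm⟩
    have hprod : φ i * φ ((i + 1) % p) = (N3.prod : N3 (ZMod q) (fun a b => b = a + 1)) :=
      (N3.mul_cases (φ i) (φ ((i + 1) % p))).resolve_right hne
    obtain ⟨a, b, ha, hb, rfl⟩ := N3.mul_eq_prod hprod
    exact ⟨a, ha, hb⟩
  obtain ⟨a0, ha0, -⟩ := hedge 0 hp
  have hall : ∀ i ≤ p, φ (i % p) = N3.gen (a0 + i) := by
    intro i
    induction i with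
    | zero => intro _; simpa using ha0
    | succ i ih =>
      intro hi
      have hi' : i < p := hi
      obtain ⟨a, ha, hb⟩ := hedge i hi'
      have h1 := ih hi'.le
      rw [Nat.mod_eq_of_lt hi', ha] at h1
      rw [hb, N3.gen.inj h1]
      push_cast
      rw [add_assoc]
  have h2 := hall p le_rfl
  rw [Nat.mod_self, ha0] at h2
  have h3 : (p : ZMod q) = 0 := by
    have := N3.gen.inj h2
    simpa using this
  exact hpq ((ZMod.natCast_eq_zero_iff p q).1 h3)

/-- The subvariety cut out by the cycle inclusions for the primes in `P`. -/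
def sub (P : Set Nat.Primes) : Set Semigrp.{0} :=
  {T | ∀ ι ∈ {ι | Satisfies SS ι} ∪ (fun p : Nat.Primes => cycInc p) '' P, Satisfies T ι}

theorem cyc_mem_sub (P : Set Nat.Primes) (q : Nat.Primes) : cyc q ∈ sub P ↔ q ∉ P := by
  constructor
  · intro h hq
    exact not_satisfies_cyc q (h _ (Or.inr ⟨q, hq, rfl⟩))
  · rintro hq ι (hι | ⟨p, hp, rfl⟩)
    · exact mem_generated _ _ ι hι
    · refine satisfies_cyc p.2.pos (fun hd => hq ?_)
      have : q = p := Subtype.ext ((Nat.prime_dvd_prime_iff_eq q.2 p.2).1 hd)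
      rwa [this]

theorem sub_injective : Function.Injective sub := by
  intro P Q h
  ext q
  have h1 := cyc_mem_sub P q
  have h2 := cyc_mem_sub Q q
  rw [h] at h1
  tauto

/-- There is a finite (even 3-nilpotent) semigroup whose inclusive variety has uncountably many,
in particular infinitely many, inclusive subvarieties. -/
theorem result :
    ∃ S : Semigrp.{0}, Finite S ∧ (∃ z : S, ∀ a b c : S, a * b * c = z) ∧
      ¬ Set.Countable {W : Set Semigrp.{0} | IsInclusiveVariety W ∧ W ⊆ generated S} := by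
  refine ⟨SS, finite_SS, ⟨N3.zero, fun a b c => N3.mul_mul_left a b c⟩, fun hc => ?_⟩
  have hsub : Set.range sub ⊆ {W : Set Semigrp.{0} | IsInclusiveVariety W ∧ W ⊆ generated SS} := by
    rintro _ ⟨P, rfl⟩
    exact ⟨⟨_, rfl⟩, fun T hT ι hι => hT ι (Or.inl hι)⟩
  have h1 : (Set.range sub).Countable := hc.mono hsub
  have h2 : Countable (Set Nat.Primes) := by
    have := h1.to_subtype
    exact (Set.rangeFactorization_injective.2 sub_injective).countable
  have h3 : Cardinal.mk (Set Nat.Primes) ≤ Cardinal.aleph0 := Cardinal.mk_le_aleph0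
  rw [Cardinal.mk_set] at h3
  exact absurd ((Cardinal.aleph0_le_mk Nat.Primes).trans_lt (Cardinal.cantor _)) (not_lt.2 h3)

end Pool.Agent.Results.MP_ea093d_al.UncountableLattice
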